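import Mathlib
import Pool.Agent.V11200.DistTable

/-!
A median graph on 12 vertices with a diametral pair that does not extend to a triametral triple.
-/

namespace Pool.Agent.Results.MP_371ff7_co.NoExtension

variable {V : Type*}

/-- The interval `[u, v] = {x | d(u, x) + d(x, v) = d(u, v)}`. -/
def interval (G : SimpleGraph V) (u v : V) : Set V := {x | G.dist u x + G.dist x v = G.dist u v}

/-- `G` is a median graph. -/
def IsMedian (G : SimpleGraph V) : Prop :=
  G.Connected ∧ ∀ u v w : V, (interval G u v ∩ interval G u w ∩ interval G v w).ncard = 1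

/-- `d(u, v, w) = d(u, v) + d(u, w) + d(v, w)`. -/
noncomputable def tri (G : SimpleGraph V) (u v w : V) : ℕ := G.dist u v + G.dist u w + G.dist v w

/-- The triple `u, v, w` is triametral: `d(u, v, w) = tr(G)`. -/
def IsTriametral (G : SimpleGraph V) (u v w : V) : Prop := ∀ x y z, tri G x y z ≤ tri G u v w

/-- The pair `u, v` is diametral: `d(u, v) = diam(G)`. -/
def IsDiametral (G : SimpleGraph V) (u v : V) : Prop := ∀ x y, G.dist x y ≤ G.dist u v

/-- Number of binary ones of a number below 256. -/
def pc (n : ℕ) : ℕ :=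
  n % 2 + n / 2 % 2 + n / 4 % 2 + n / 8 % 2 + n / 16 % 2 + n / 32 % 2 + n / 64 % 2 + n / 128 % 2

/-- The vertices as 0/1-words: the 3-cube and four pendant vertices. -/
def code : Fin 12 → ℕ := ![0, 1, 2, 3, 4, 5, 6, 7, 1 + 8, 2 + 16, 4 + 32, 0 + 64]

/-- Hamming distance of the words. -/
def ham (u v : Fin 12) : ℕ := pc (code u ^^^ code v)

/-- The 3-cube with pendant vertices attached at `001, 010, 100, 000`. -/
def G : SimpleGraph (Fin 12) where
  Adj u v := ham u v = 1
  symm := by
    constructor
    intro u v h
    unfold ham at *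
    rw [Nat.xor_comm]; exact h
  loopless := by
    constructor
    intro u h
    unfold ham at h
    rw [Nat.xor_self] at h
    revert h
    decide

instance : DecidableRel G.Adj := fun u v => inferInstanceAs (Decidable (ham u v = 1))

theorem G_dist : G.Connected ∧ ∀ u v, G.dist u v = ham u v := by
  apply Pool.Agent.V11200.dist_eq_table G ham
  · decide +kernel
  · decide +kernel
  · decide +kernel

theorem G_median : IsMedian G := by
  refine ⟨G_dist.1, ?_⟩
  have h : ∀ u v w : Fin 12, ∃ x, ((ham u x + ham x v = ham u v ∧ ham u x + ham x w = ham u w) ∧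
      ham v x + ham x w = ham v w) ∧ ∀ y, ((ham u y + ham y v = ham u v ∧
      ham u y + ham y w = ham u w) ∧ ham v y + ham y w = ham v w) → y = x := by
    decide +kernel
  intro u v w
  obtain ⟨x, hx1, hx2⟩ := h u v w
  rw [Set.ncard_eq_one]
  refine ⟨x, Set.eq_singleton_iff_unique_mem.2 ⟨?_, ?_⟩⟩
  · simpa only [interval, Set.mem_inter_iff, Set.mem_ofPred_eq, G_dist.2] using hx1
  · intro y hy
    apply hx2
    simpa only [interval, Set.mem_inter_iff, Set.mem_ofPred_eq, G_dist.2] using hy

/-- **Main theorem.** There is a finite median graph with a diametral pair `x, y` that does not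
extend to a triametral triple. -/
theorem result : ∃ (V : Type) (_ : Fintype V) (G : SimpleGraph V), IsMedian G ∧
    ∃ x y : V, IsDiametral G x y ∧ ∀ z : V, ¬ IsTriametral G x y z := by
  refine ⟨Fin 12, inferInstance, G, G_median, 11, 7, ?_, ?_⟩
  · have h : ∀ x y : Fin 12, ham x y ≤ ham 11 7 := by decide +kernel
    intro x y
    simpa only [G_dist.2] using h x y
  · have h : ∀ z : Fin 12, ¬ (ham 8 9 + ham 8 10 + ham 9 10 ≤ ham 11 7 + ham 11 z + ham 7 z) := by
      decide +kernel
    intro z hz
    apply h z
    have := hz 8 9 10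
    simpa only [tri, G_dist.2] using this

end Pool.Agent.Results.MP_371ff7_co.NoExtension
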